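import Pool.Agent.W476.TP.Base

/-!
# Project TP: ideals generated by weighted homogeneous elements
-/

set_option autoImplicit false

namespace Pool.Agent.W476.TP

open MvPolynomial

/-- a polynomial is the sum of its components over a finite set of degrees -/
theorem exists_sum_comp {σ K M : Type} [Field K] [AddCommMonoid M] (w : σ → M)
    (P : MvPolynomial σ K) : ∃ s : Finset M, P = ∑ δ ∈ s, weightedHomogeneousComponent w δ P := by
  have h := sum_weightedHomogeneousComponent w P
  have h2 := weightedHomogeneousComponent_finsupp (w := w) P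
  rw [finsum_eq_sum _ h2] at h
  exact ⟨_, h.symm⟩

theorem comp_mul_mem {σ K M : Type} [Field K] [AddCommMonoid M] (w : σ → M)
    {I : Ideal (MvPolynomial σ K)} {P : MvPolynomial σ K}
    (hP : ∀ δ, weightedHomogeneousComponent w δ P ∈ I) (A : MvPolynomial σ K) (δ : M) :
    weightedHomogeneousComponent w δ (A * P) ∈ I := by
  classical
  obtain ⟨s, hs⟩ := exists_sum_comp w P
  obtain ⟨t, ht⟩ := exists_sum_comp w A
  have h : A * P = ∑ a ∈ t, ∑ b ∈ s,
      weightedHomogeneousComponent w a A * weightedHomogeneousComponent w b P := by
    conv_lhs => rw [hs, ht]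
    rw [Finset.sum_mul]
    refine Finset.sum_congr rfl fun a _ => ?_
    rw [Finset.mul_sum]
  rw [h, map_sum]
  refine Ideal.sum_mem _ fun a _ => ?_
  rw [map_sum]
  refine Ideal.sum_mem _ fun b _ => ?_
  have h1 : IsWeightedHomogeneous w (weightedHomogeneousComponent w a A *
      weightedHomogeneousComponent w b P) (a + b) :=
    (weightedHomogeneousComponent_isWeightedHomogeneous a A).mul
      (weightedHomogeneousComponent_isWeightedHomogeneous b P)
  by_cases h2 : δ = a + b
  · rw [h2, h1.weightedHomogeneousComponent_same]
    exact I.mul_mem_left _ (hP b)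
  · rw [h1.weightedHomogeneousComponent_ne δ h2]
    exact I.zero_mem

/-- the ideal generated by weighted homogeneous elements contains the components of its
elements -/
theorem comp_mem_span {σ K M : Type} [Field K] [AddCommMonoid M] (w : σ → M)
    {S : Set (MvPolynomial σ K)} (hS : ∀ s ∈ S, ∃ δ, IsWeightedHomogeneous w s δ)
    {P : MvPolynomial σ K} (hP : P ∈ Ideal.span S) (δ : M) :
    weightedHomogeneousComponent w δ P ∈ Ideal.span S := by
  classical
  revert δ
  refine Submodule.span_induction (p := fun P _ => ∀ δ : M,
    weightedHomogeneousComponent w δ P ∈ Ideal.span S) ?_ ?_ ?_ ?_ hP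
  · intro s hs δ
    obtain ⟨e, he⟩ := hS s hs
    by_cases h : δ = e
    · rw [h, he.weightedHomogeneousComponent_same]
      exact Ideal.subset_span hs
    · rw [he.weightedHomogeneousComponent_ne δ h]
      exact Ideal.zero_mem _
  · intro δ
    rw [map_zero]
    exact Ideal.zero_mem _
  · intro x y _ _ hx hy δ
    rw [map_add]
    exact Ideal.add_mem _ (hx δ) (hy δ)
  · intro a x _ hx δ
    rw [smul_eq_mul]
    exact comp_mul_mem w hx a δ

/-- component of a product with a weighted homogeneous element -/
theorem comp_mul_hom {σ K M : Type} [Field K] [AddCommMonoid M] [IsCancelAdd M] (w : σ → M)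
    {F : MvPolynomial σ K} {a : M} (hF : IsWeightedHomogeneous w F a) (P : MvPolynomial σ K)
    (b : M) :
    weightedHomogeneousComponent w (a + b) (F * P) = F * weightedHomogeneousComponent w b P := by
  classical
  obtain ⟨s, hs⟩ := exists_sum_comp w P
  have key : ∀ t : Finset M, weightedHomogeneousComponent w (a + b)
      (F * ∑ c ∈ t, weightedHomogeneousComponent w c P) =
      F * ∑ c ∈ t, (if c = b then weightedHomogeneousComponent w c P else 0) := by
    intro t
    rw [Finset.mul_sum, Finset.mul_sum, map_sum]
    refine Finset.sum_congr rfl fun c _ => ?_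
    have h1 : IsWeightedHomogeneous w (F * weightedHomogeneousComponent w c P) (a + c) :=
      hF.mul (weightedHomogeneousComponent_isWeightedHomogeneous c P)
    by_cases h : c = b
    · rw [if_pos h, h, ← h, h1.weightedHomogeneousComponent_same]
    · rw [if_neg h, mul_zero, h1.weightedHomogeneousComponent_ne]
      intro h2
      exact h (add_left_cancel h2).symm
  have h1 := key s
  rw [← hs] at h1
  rw [h1]
  congr 1
  by_cases hb : b ∈ s
  · rw [Finset.sum_ite_eq' s b, if_pos hb]
  · rw [Finset.sum_ite_eq' s b, if_neg hb]
    rw [hs, map_sum]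
    symm
    refine Finset.sum_eq_zero fun c hc => ?_
    refine (weightedHomogeneousComponent_isWeightedHomogeneous c P
      ).weightedHomogeneousComponent_ne b ?_
    rintro rfl
    exact hb hc

end Pool.Agent.W476.TP
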