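import Pool.Agent.W476.TP.Asm3
import Pool.Agent.W349.TP.Sum
import Pool.Agent.W349.TP.Rad
import Pool.Agent.W101.TP.App
import Pool.Agent.W515.TP.Mon
import Pool.Agent.W249.TP.NST
import Pool.Agent.W338.TP.Key
import Pool.Agent.W762.TP.Exc
import Pool.Agent.W356.TP.CLO
import Pool.Agent.W82.TP.DL
import Pool.Agent.W356.TP.DU
import Pool.Agent.W351.TP.Est
import Pool.Agent.W177.TP.PT
import Pool.Agent.W465.TP.ACL
import Pool.Agent.W933.TP.Tlt

/-!
# Project TP: the approximation theorem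
-/

set_option autoImplicit false

namespace Pool.Agent.W476.TP

theorem t_APP' : S_APP := t_APP W349.TP.t_SUM W349.TP.t_RAD

/-- The approximation theorem for an abstract sharp map. -/
theorem main : S_MAIN :=
  t_MAIN t_APP' (Pool.Agent.W515.TP.t_MON t_APP')
    (Pool.Agent.W762.TP.t_EXC (Pool.Agent.W338.TP.t_KEY t_NST))
    (Pool.Agent.W356.TP.t_CLO t_NST) Pool.Agent.W82.TP.t_DL Pool.Agent.W356.TP.t_DU
    W351.TP.t_NZ W351.TP.t_VAN W351.TP.t_UP Pool.Agent.W177.TP.t_PT

end Pool.Agent.W476.TP
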