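import Mathlib

/-!
# Project TP: statements

Approximation of tilted preimages in projective space for images of complete intersections in
products of projective spaces. This file contains only definitions and Props.
-/

set_option autoImplicit false

namespace Pool.Agent.W476.TP

open MvPolynomial

/-- The abstract sharp map between an algebraically closed field `L` of characteristic `p` and a
normed field `C`: multiplicative, surjective and additive up to `p`. -/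
structure Sharp (p : ℕ) (C L : Type) [NormedField C] [Field L] : Type where
  sh : L →*₀ C
  surj : Function.Surjective sh
  add : ∀ u v : L, ‖sh (u + v) - (sh u + sh v)‖ ≤ ‖(p : C)‖ * max ‖sh u‖ ‖sh v‖

/-- Coordinates on a product of affine spaces of dimensions `m κ + 1`. -/
abbrev Sig {r : ℕ} (m : Fin r → ℕ) : Type := (κ : Fin r) × Fin (m κ + 1)

/-- The weights of the coordinates: the coordinates of the `κ`-th group have the `κ`-th unit vector
as weight. -/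
def wt {r : ℕ} (m : Fin r → ℕ) : Sig m → (Fin r → ℕ) := fun i => Pi.single i.1 1

/-- `F` is multihomogeneous of multidegree `d`. -/
def MH {r : ℕ} {m : Fin r → ℕ} {K : Type} [Field K] (F : MvPolynomial (Sig m) K)
    (d : Fin r → ℕ) : Prop := IsWeightedHomogeneous (wt m) F d

/-- A vector is relevant if no group of coordinates vanishes: it gives a point of the product of
projective spaces. -/
def Rel {r : ℕ} {m : Fin r → ℕ} {K : Type} [Field K] (y : Sig m → K) : Prop :=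
  ∀ κ, ∃ i, y ⟨κ, i⟩ ≠ 0

/-- Weights on the coordinates `(y, z)`: the `z` have weight `D`. -/
def wt2 {r : ℕ} (m : Fin r → ℕ) (D : Fin r → ℕ) (n : ℕ) : Sig m ⊕ Fin (n + 1) → (Fin r → ℕ) :=
  Sum.elim (wt m) (fun _ => D)

/-- The value at `(y, z)` of a polynomial in one variable over the polynomial ring. -/
noncomputable def ev {r : ℕ} {m : Fin r → ℕ} {K : Type} [Field K]
    (G : Polynomial (MvPolynomial (Sig m) K)) (y : Sig m → K) (z : K) : K :=
  Polynomial.eval z (G.map (MvPolynomial.eval y))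

/-- `G` is monic of degree `t ≥ 1` and multihomogeneous of degree `t • D`, the variable having
weight `D`. -/
def MonicMH {r : ℕ} {m : Fin r → ℕ} {K : Type} [Field K] (D : Fin r → ℕ)
    (G : Polynomial (MvPolynomial (Sig m) K)) (t : ℕ) : Prop :=
  0 < t ∧ G.Monic ∧ G.natDegree = t ∧ ∀ l ≤ t, MH (G.coeff l) ((t - l) • D)

/-- `I` is a homogeneous ideal: it contains all homogeneous components of its elements. -/
def HomI {n : ℕ} {K : Type} [Field K] (I : Ideal (MvPolynomial (Fin (n + 1)) K)) : Prop :=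
  ∀ P ∈ I, ∀ k, homogeneousComponent k P ∈ I

/-! ### Part A: the sharp map and approximation of polynomials -/

/-- SUM: a sum of sharps is the sharp of the sum plus sharps of monomials divisible by `p`, up to
a power of `p`. The family `v` consists of `p ^ k`-th roots. -/
def S_SUM : Prop :=
  ∀ (p : ℕ) [Fact p.Prime] (C L : Type) [NormedField C] [IsUltrametricDist C] [Field L]
    [CharP L p] (S : Sharp p C L), 0 < ‖(p : C)‖ → ‖(p : C)‖ < 1 →
    ∀ (k : ℕ) (ι : Type) [Fintype ι] [DecidableEq ι],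
    ∃ γ : (ι → ℕ) → L, (∀ α, ‖S.sh (γ α)‖ ≤ ‖(p : C)‖) ∧
      ∀ (v : ι → L) (M : ℝ), 0 ≤ M → (∀ i, ‖S.sh (v i)‖ ^ p ^ k ≤ M) →
        ‖(∑ i, S.sh (v i ^ p ^ k)) - (S.sh (∑ i, v i ^ p ^ k) +
          ∑ α ∈ ((Fintype.piFinset fun _ : ι => Finset.range (p ^ k + 1)).filter
            fun α => (∑ i, α i = p ^ k) ∧ ∀ i, α i ≠ p ^ k),
            S.sh (γ α * ∏ i, v i ^ α i))‖ ≤ ‖(p : C)‖ ^ (k + 1) * M

/-- `b` is a polynomial function with `p`-power roots, of degree `d`: some power `b ^ (p ^ s)` is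
given by a polynomial, weighted homogeneous of degree `p ^ s • d`. -/
def Rad {L σ M : Type} [Field L] [AddCommMonoid M] (p : ℕ) (w : σ → M) (d : M)
    (b : (σ → L) → L) : Prop :=
  ∃ (s : ℕ) (G : MvPolynomial σ L), IsWeightedHomogeneous w G (p ^ s • d) ∧
    ∀ z, b z ^ p ^ s = eval z G

/-- RAD: closure properties of `Rad`. -/
def S_RAD : Prop :=
  ∀ (p : ℕ) [Fact p.Prime] (L : Type) [Field L] [CharP L p] (σ : Type) [Fintype σ]
    (M : Type) [AddCommMonoid M] (w : σ → M) (d : M),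
    (∀ (γ : L) (α : σ →₀ ℕ), Finsupp.weight w α = d →
      Rad p w d (fun z : σ → L => γ * ∏ i, z i ^ α i)) ∧
    (∀ (ι : Type) [Fintype ι] (u : ι → (σ → L) → L), (∀ i, Rad p w d (u i)) →
      Rad p w d (fun z => ∑ i, u i z)) ∧
    (∀ (ι : Type) [Fintype ι] (k : ℕ) (u v : ι → (σ → L) → L) (α : ι → ℕ) (γ : L),
      (∀ i, Rad p w d (u i)) → (∀ i z, v i z ^ p ^ k = u i z) → ∑ i, α i = p ^ k →
      Rad p w d (fun z => γ * ∏ i, v i z ^ α i))

/-- APP: approximation of a weighted homogeneous polynomial. -/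
def S_APP : Prop :=
  ∀ (p : ℕ) [Fact p.Prime] (C L : Type) [NormedField C] [IsUltrametricDist C] [Field L]
    [CharP L p] [IsAlgClosed L] (S : Sharp p C L), 0 < ‖(p : C)‖ → ‖(p : C)‖ < 1 →
    ∀ (σ : Type) [Fintype σ] (M : Type) [AddCommMonoid M] (w : σ → M) (d : M)
      (h : MvPolynomial σ C), IsWeightedHomogeneous w h d → (∀ α, ‖h.coeff α‖ ≤ 1) → ∀ N : ℕ,
    ∃ (s : ℕ) (G : MvPolynomial σ L), IsWeightedHomogeneous w G (p ^ s • d) ∧
      ∀ z : σ → L, (∀ i, ‖S.sh (z i)‖ ≤ 1) → eval z G = 0 →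
        ‖eval (fun i => S.sh (z i)) h‖ ≤ ‖(p : C)‖ ^ N

/-- MON: the equation `z = f(y)` is approximated by a monic equation. -/
def S_MON : Prop :=
  ∀ (p : ℕ) [Fact p.Prime] (C L : Type) [NormedField C] [IsUltrametricDist C] [Field L]
    [CharP L p] [IsAlgClosed L] (S : Sharp p C L), 0 < ‖(p : C)‖ → ‖(p : C)‖ < 1 →
    ∀ {r : ℕ} (m : Fin r → ℕ) (D : Fin r → ℕ), D ≠ 0 → ∀ (f : MvPolynomial (Sig m) C),
      MH f D → (∀ α, ‖f.coeff α‖ ≤ 1) → ∀ N : ℕ, 0 < N →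
    ∃ (t : ℕ) (G : Polynomial (MvPolynomial (Sig m) L)), MonicMH D G t ∧
      ∀ (y : Sig m → L) (z : L), (∀ i, ‖S.sh (y i)‖ ≤ 1) → ‖S.sh z‖ ≤ 1 → ev G y z = 0 →
        ‖S.sh z - eval (fun i => S.sh (y i)) f‖ ≤ ‖(p : C)‖ ^ N

/-! ### Part B: algebraic geometry over an algebraically closed field -/

/-- The polynomial `G(y, z_i)` in the variables `(y, z)`. -/
noncomputable def gz {r : ℕ} {m : Fin r → ℕ} {K : Type} [Field K] {n : ℕ}
    (G : Polynomial (MvPolynomial (Sig m) K)) (i : Fin (n + 1)) :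
    MvPolynomial (Sig m ⊕ Fin (n + 1)) K :=
  Polynomial.eval₂ (rename Sum.inl : MvPolynomial (Sig m) K →ₐ[K]
    MvPolynomial (Sig m ⊕ Fin (n + 1)) K).toRingHom (X (Sum.inr i)) G

/-- NST: an ideal without relevant zeros contains all forms of large multidegree. -/
def S_NST : Prop :=
  ∀ (L : Type) [Field L] [IsAlgClosed L] {r n : ℕ} (m : Fin r → ℕ) (D : Fin r → ℕ), D ≠ 0 →
    ∀ (G : Fin (n + 1) → Polynomial (MvPolynomial (Sig m) L)) (t : Fin (n + 1) → ℕ),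
      (∀ i, MonicMH D (G i) (t i)) →
    ∀ K : Ideal (MvPolynomial (Sig m ⊕ Fin (n + 1)) L), (∀ i, gz (G i) i ∈ K) →
      (∀ (y : Sig m → L) (z : Fin (n + 1) → L), Rel y → ∃ P ∈ K, eval (Sum.elim y z) P ≠ 0) →
    ∃ N : ℕ, ∀ δ : Fin r → ℕ, (∀ κ, N ≤ δ κ) →
      ∀ Q : MvPolynomial (Sig m ⊕ Fin (n + 1)) L, IsWeightedHomogeneous (wt2 m D n) Q δ → Q ∈ K

/-- KEY: if a system has solutions on every hyperplane of the `κ`-th group of coordinates then it
has a solution on every hypersurface of positive degree in this group. -/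
def S_KEY : Prop :=
  ∀ (L : Type) [Field L] [IsAlgClosed L] {r n : ℕ} (m : Fin r → ℕ) (D : Fin r → ℕ), D ≠ 0 →
    ∀ (G : Fin (n + 1) → Polynomial (MvPolynomial (Sig m) L)) (t : Fin (n + 1) → ℕ),
      (∀ i, MonicMH D (G i) (t i)) →
    ∀ (J : Type) [Fintype J] (F : J → MvPolynomial (Sig m ⊕ Fin (n + 1)) L)
      (δ : J → Fin r → ℕ), (∀ j, IsWeightedHomogeneous (wt2 m D n) (F j) (δ j)) →
    ∀ κ : Fin r,
      (∀ l : Fin (m κ + 1) → L, ∃ (y : Sig m → L) (z : Fin (n + 1) → L), Rel y ∧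
        (∀ i, ev (G i) y (z i) = 0) ∧ (∀ j, eval (Sum.elim y z) (F j) = 0) ∧
        ∑ i, l i * y ⟨κ, i⟩ = 0) →
    ∀ (F₀ : MvPolynomial (Sig m ⊕ Fin (n + 1)) L) (δ₀ : Fin r → ℕ),
      IsWeightedHomogeneous (wt2 m D n) F₀ δ₀ → 0 < δ₀ κ →
    ∃ (y : Sig m → L) (z : Fin (n + 1) → L), Rel y ∧ (∀ i, ev (G i) y (z i) = 0) ∧
      (∀ j, eval (Sum.elim y z) (F j) = 0) ∧ eval (Sum.elim y z) F₀ = 0

/-- EXC: common zeros of multihomogeneous forms. -/
def S_EXC : Prop :=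
  ∀ (L : Type) [Field L] [IsAlgClosed L] {r n : ℕ} (m : Fin r → ℕ) (D : Fin r → ℕ), D ≠ 0 →
    ∀ (G : Fin (n + 1) → Polynomial (MvPolynomial (Sig m) L)) (t : Fin (n + 1) → ℕ),
      (∀ i, MonicMH D (G i) (t i)) →
    ∀ (J : Type) [Fintype J] [DecidableEq J] (F : J → MvPolynomial (Sig m ⊕ Fin (n + 1)) L)
      (δ : J → Fin r → ℕ), (∀ j, IsWeightedHomogeneous (wt2 m D n) (F j) (δ j)) →
    ∀ τ : J → Fin r, (∀ j, 0 < δ j (τ j)) →
      (∀ κ, (Finset.univ.filter fun j => τ j = κ).card ≤ m κ) →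
    ∃ (y : Sig m → L) (z : Fin (n + 1) → L), Rel y ∧ (∀ i, ev (G i) y (z i) = 0) ∧
      ∀ j, eval (Sum.elim y z) (F j) = 0

/-- CLO: the projection to the `z` is closed. -/
def S_CLO : Prop :=
  ∀ (L : Type) [Field L] [IsAlgClosed L] {r n c : ℕ} (m : Fin r → ℕ) (D : Fin r → ℕ), D ≠ 0 →
    ∀ (G : Fin (n + 1) → Polynomial (MvPolynomial (Sig m) L)) (t : Fin (n + 1) → ℕ),
      (∀ i, MonicMH D (G i) (t i)) →
    ∀ (H : Fin c → MvPolynomial (Sig m) L) (b : Fin c → Fin r → ℕ), (∀ j, MH (H j) (b j)) →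
      (∀ y : Sig m → L, Rel y → (∀ j, eval y (H j) = 0) → ∃ i, ev (G i) y 0 ≠ 0) →
    ∃ I : Ideal (MvPolynomial (Fin (n + 1)) L),
      HomI I ∧
      ∀ z : Fin (n + 1) → L, z ≠ 0 → ((∀ P ∈ I, eval z P = 0) ↔
        ∃ y : Sig m → L, Rel y ∧ (∀ j, eval y (H j) = 0) ∧ ∀ i, ev (G i) y (z i) = 0)

/-- DL: a homogeneous ideal of small dimension is cut to the origin by few linear forms. -/
def S_DL : Prop :=
  ∀ (K : Type) [Field K] [IsAlgClosed K] (n d : ℕ) (I : Ideal (MvPolynomial (Fin (n + 1)) K)),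
    HomI I →
    ringKrullDim (MvPolynomial (Fin (n + 1)) K ⧸ I) ≤ d →
    ∃ l : Fin d → Fin (n + 1) → K, ∀ x : Fin (n + 1) → K, (∀ P ∈ I, eval x P = 0) →
      (∀ k, ∑ i, l k i * x i = 0) → x = 0

/-- DU: if few forms cut the zero set of a homogeneous ideal to the origin then the dimension is
small. -/
def S_DU : Prop :=
  ∀ (K : Type) [Field K] [IsAlgClosed K] (n d : ℕ) (I : Ideal (MvPolynomial (Fin (n + 1)) K)),
    HomI I →
    ∀ (P : Fin d → MvPolynomial (Fin (n + 1)) K) (k : Fin d → ℕ), (∀ i, 0 < k i) →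
      (∀ i, (P i).IsHomogeneous (k i)) →
      (∀ x : Fin (n + 1) → K, (∀ Q ∈ I, eval x Q = 0) → (∀ i, eval x (P i) = 0) → x = 0) →
    ringKrullDim (MvPolynomial (Fin (n + 1)) K ⧸ I) ≤ d

/-! ### Part C: estimates over `C` -/

/-- each group of coordinates has sup norm one -/
def Nrm {C : Type} [NormedField C] {r : ℕ} {m : Fin r → ℕ} (y : Sig m → C) : Prop :=
  (∀ i, ‖y i‖ ≤ 1) ∧ ∀ κ, ∃ i, ‖y ⟨κ, i⟩‖ = 1

/-- NZ: forms without common zeros are bounded below. -/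
def S_NZ : Prop :=
  ∀ (C : Type) [NormedField C] [IsUltrametricDist C] [IsAlgClosed C] {r : ℕ} (m : Fin r → ℕ)
    (J : Type) [Fintype J] (q : J → MvPolynomial (Sig m) C),
    (∀ y : Sig m → C, Rel y → ∃ j, eval y (q j) ≠ 0) →
    ∃ δ : ℝ, 0 < δ ∧ ∀ y : Sig m → C, Nrm y → ∃ j, δ ≤ ‖eval y (q j)‖

/-- VAN: a polynomial vanishing on the common zeros of the `g` is small where the `g` are small. -/
def S_VAN : Prop :=
  ∀ (C : Type) [NormedField C] [IsUltrametricDist C] [IsAlgClosed C] {r : ℕ} (m : Fin r → ℕ)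
    (J : Type) [Fintype J] (g : J → MvPolynomial (Sig m) C) (q : MvPolynomial (Sig m) C),
    (∀ y : Sig m → C, Rel y → (∀ j, eval y (g j) = 0) → eval y q = 0) →
    ∀ ε : ℝ, 0 < ε → ∃ δ : ℝ, 0 < δ ∧ ∀ y : Sig m → C, Nrm y → (∀ j, ‖eval y (g j)‖ ≤ δ) →
      ‖eval y q‖ ≤ ε

/-- UP: near the zero set of a homogeneous ideal some of the linear forms is bounded below. -/
def S_UP : Prop :=
  ∀ (C : Type) [NormedField C] [IsUltrametricDist C] [IsAlgClosed C] (n d : ℕ)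
    (I : Ideal (MvPolynomial (Fin (n + 1)) C)),
    HomI I →
    ∀ l : Fin d → Fin (n + 1) → C, (∀ x : Fin (n + 1) → C, (∀ P ∈ I, eval x P = 0) →
      (∀ k, ∑ i, l k i * x i = 0) → x = 0) →
    ∃ (Q : Finset (MvPolynomial (Fin (n + 1)) C)) (δ : ℝ), 0 < δ ∧
      (∀ P ∈ Q, P ∈ I ∧ ∃ k, P.IsHomogeneous k) ∧
      ∀ x : Fin (n + 1) → C, (∀ i, ‖x i‖ ≤ 1) → (∃ i, ‖x i‖ = 1) →
        (∀ P ∈ Q, ‖eval x P‖ ≤ δ) → ∃ k, δ < ‖∑ i, l k i * x i‖

/-- PT: solutions of the approximating system, normalised, give approximate solutions. -/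
def S_PT : Prop :=
  ∀ (p : ℕ) [Fact p.Prime] (C L : Type) [NormedField C] [IsUltrametricDist C] [Field L]
    [CharP L p] [IsAlgClosed L] (S : Sharp p C L), 0 < ‖(p : C)‖ → ‖(p : C)‖ < 1 →
    ∀ {r n c : ℕ} (m : Fin r → ℕ) (D : Fin r → ℕ), D ≠ 0 → ∀ (N : ℕ), 0 < N →
    ∀ (g : Fin c → MvPolynomial (Sig m) C) (f : Fin (n + 1) → MvPolynomial (Sig m) C),
      (∀ i, MH (f i) D) → (∀ i α, ‖(f i).coeff α‖ ≤ 1) →
    ∀ (H : Fin c → MvPolynomial (Sig m) L) (b : Fin c → Fin r → ℕ), (∀ j, MH (H j) (b j)) →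
      (∀ j (y : Sig m → L), (∀ i, ‖S.sh (y i)‖ ≤ 1) → eval y (H j) = 0 →
        ‖eval (fun i => S.sh (y i)) (g j)‖ ≤ ‖(p : C)‖ ^ N) →
    ∀ (G : Fin (n + 1) → Polynomial (MvPolynomial (Sig m) L)) (t : Fin (n + 1) → ℕ),
      (∀ i, MonicMH D (G i) (t i)) →
      (∀ i (y : Sig m → L) (z : L), (∀ i, ‖S.sh (y i)‖ ≤ 1) → ‖S.sh z‖ ≤ 1 →
        ev (G i) y z = 0 → ‖S.sh z - eval (fun i => S.sh (y i)) (f i)‖ ≤ ‖(p : C)‖ ^ N) →
    ∀ (y : Sig m → L) (z : Fin (n + 1) → L), Rel y → (∀ j, eval y (H j) = 0) →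
      (∀ i, ev (G i) y (z i) = 0) →
    ∃ (a : L) (y' : Sig m → L), a ≠ 0 ∧ Nrm (fun i => S.sh (y' i)) ∧
      (∀ i, ‖S.sh (a * z i)‖ ≤ 1) ∧
      (∀ j, ‖eval (fun i => S.sh (y' i)) (g j)‖ ≤ ‖(p : C)‖ ^ N) ∧
      ∀ i, ‖S.sh (a * z i) - eval (fun i => S.sh (y' i)) (f i)‖ ≤ ‖(p : C)‖ ^ N

/-- The ideal of the image of the zero set of `g` under `f`: all polynomials vanishing at all
`f y`, `y` a relevant common zero of the `g j`. -/
def imIdeal {r c n : ℕ} {m : Fin r → ℕ} {K : Type} [Field K]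
    (g : Fin c → MvPolynomial (Sig m) K) (f : Fin (n + 1) → MvPolynomial (Sig m) K) :
    Ideal (MvPolynomial (Fin (n + 1)) K) where
  carrier := {P | ∀ y : Sig m → K, Rel y → (∀ j, eval y (g j) = 0) →
    eval (fun i => eval y (f i)) P = 0}
  add_mem' := by
    intro P Q hP hQ y h1 h2
    rw [map_add, hP y h1 h2, hQ y h1 h2, add_zero]
  zero_mem' := by
    intro y _ _
    rw [map_zero]
  smul_mem' := by
    intro c P hP y h1 h2
    rw [smul_eq_mul, map_mul, hP y h1 h2, mul_zero]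

/-- MAIN: the approximation theorem for an abstract sharp map. -/
def S_MAIN : Prop :=
  ∀ (p : ℕ) [Fact p.Prime] (C L : Type) [NormedField C] [IsUltrametricDist C] [IsAlgClosed C]
    [Field L] [CharP L p] [IsAlgClosed L] (S : Sharp p C L), 0 < ‖(p : C)‖ → ‖(p : C)‖ < 1 →
    ∀ {r c n e : ℕ} (m : Fin r → ℕ) (g : Fin c → MvPolynomial (Sig m) C)
      (a : Fin c → Fin r → ℕ), (∀ j, MH (g j) (a j)) →
    ∀ (f : Fin (n + 1) → MvPolynomial (Sig m) C) (D : Fin r → ℕ), (∀ i, MH (f i) D) → D ≠ 0 →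
      (∀ y : Sig m → C, Rel y → (∀ j, eval y (g j) = 0) → ∃ i, eval y (f i) ≠ 0) →
    ∀ τ : Fin c ⊕ Fin e → Fin r, (∀ j, 0 < a j (τ (Sum.inl j))) →
      (∀ k, 0 < D (τ (Sum.inr k))) →
      (∀ κ, (Finset.univ.filter fun x => τ x = κ).card ≤ m κ) →
      ringKrullDim (MvPolynomial (Fin (n + 1)) C ⧸ imIdeal g f) = ((e + 1 : ℕ) : WithBot ℕ∞) →
    ∀ ε : ℝ, 0 < ε → ∀ Q : Finset (MvPolynomial (Fin (n + 1)) C),
      (∀ P ∈ Q, P ∈ imIdeal g f) → (∀ P ∈ Q, ∃ k, P.IsHomogeneous k) →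
    ∃ I : Ideal (MvPolynomial (Fin (n + 1)) L), HomI I ∧
      ringKrullDim (MvPolynomial (Fin (n + 1)) L ⧸ I) = ((e + 1 : ℕ) : WithBot ℕ∞) ∧
      ∀ z : Fin (n + 1) → L, z ≠ 0 → (∀ P ∈ I, eval z P = 0) → ∀ P ∈ Q, ∀ k,
        P.IsHomogeneous k → ∃ i, ‖eval (fun i => S.sh (z i)) P‖ ≤ ε * ‖S.sh (z i)‖ ^ k

/-! ### Part D: the sharp map of `ℂ_[p]` -/

/-- completeness of `L` for the norm `‖sh ·‖` -/
def Cpl {p : ℕ} {C L : Type} [NormedField C] [Field L] (S : Sharp p C L) : Prop :=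
  ∀ a : ℕ → L, Filter.Tendsto (fun k => ‖S.sh (a k)‖) Filter.atTop (nhds 0) →
    ∃ s : L, Filter.Tendsto (fun k => ‖S.sh (s - ∑ i ∈ Finset.range k, a i)‖) Filter.atTop
      (nhds 0)

/-- ACL: a complete `L` is algebraically closed. -/
def S_ACL : Prop :=
  ∀ (p : ℕ) [Fact p.Prime] (C L : Type) [NormedField C] [IsUltrametricDist C] [IsAlgClosed C]
    [Field L] [CharP L p] (S : Sharp p C L), 0 < ‖(p : C)‖ → ‖(p : C)‖ < 1 →
    Cpl S → (∀ u : L, ∃ v : L, v ^ p = u) → IsAlgClosed L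

end Pool.Agent.W476.TP
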